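import Pool.Agent.Lib.MP_f0391a_al.Gen.Series

set_option autoImplicit false

namespace Pool.Agent.Lib.MP_f0391a_al.Gen

open Classical symmDiff Pool.Agent.Lib.MP_f0391a_al

section ev

variable {k : Type} [Field k]

lemma mem_KI_iff' (f : MvPowerSeries ℕ k) :
    f ∈ KI k ↔ ∀ s : Finset ℕ, MvPowerSeries.coeff (ind s) f = 0 := by
  constructor
  · intro h s
    exact h (ind s) (ind_le s)
  · intro h m hm
    rw [← ind_support hm]
    exact h _

/-- the function on finite sets given by a class -/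
noncomputable def ev (q : MvPowerSeries ℕ k ⧸ KI k) : Finset ℕ → k := fun s =>
  MvPowerSeries.coeff (ind s) (Function.surjInv Ideal.Quotient.mk_surjective q)

lemma ev_mk (f : MvPowerSeries ℕ k) :
    ev (Ideal.Quotient.mk (KI k) f) = fun s => MvPowerSeries.coeff (ind s) f := by
  funext s
  have h := Function.surjInv_eq (Ideal.Quotient.mk_surjective (I := KI k))
    (Ideal.Quotient.mk (KI k) f)
  rw [Ideal.Quotient.eq, mem_KI_iff'] at h
  have h1 := h s
  rw [map_sub, sub_eq_zero] at h1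
  exact h1

lemma ev_inj : Function.Injective (ev (k := k)) := by
  intro a b hab
  obtain ⟨f, rfl⟩ := Ideal.Quotient.mk_surjective a
  obtain ⟨g, rfl⟩ := Ideal.Quotient.mk_surjective b
  rw [ev_mk, ev_mk] at hab
  rw [Ideal.Quotient.eq, mem_KI_iff']
  intro s
  rw [map_sub, sub_eq_zero]
  exact congrFun hab s

lemma ev_add (a b : MvPowerSeries ℕ k ⧸ KI k) : ev (a + b) = ev a + ev b := by
  obtain ⟨f, rfl⟩ := Ideal.Quotient.mk_surjective a
  obtain ⟨g, rfl⟩ := Ideal.Quotient.mk_surjective b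
  rw [← map_add, ev_mk, ev_mk, ev_mk]
  funext s
  rw [map_add]
  rfl

lemma ev_smul (c : k) (a : MvPowerSeries ℕ k ⧸ KI k) : ev (c • a) = c • ev a := by
  obtain ⟨f, rfl⟩ := Ideal.Quotient.mk_surjective a
  have h : c • Ideal.Quotient.mk (KI k) f = Ideal.Quotient.mk (KI k) (c • f) := rfl
  rw [h, ev_mk, ev_mk]
  funext s
  rw [map_smul]
  rfl

lemma ind_eq_zero_iff (s : Finset ℕ) : ind s = 0 ↔ s = ∅ := by
  constructor
  · intro h
    rw [← support_ind s, h]
    rfl
  · rintro rfl
    ext i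
    simp [ind_apply]

lemma ev_one : ev (1 : MvPowerSeries ℕ k ⧸ KI k) = fun s => if s = ∅ then 1 else 0 := by
  rw [← map_one (Ideal.Quotient.mk (KI k)), ev_mk]
  funext s
  rw [MvPowerSeries.coeff_one]
  simp only [ind_eq_zero_iff]

/-- the product of functions on finite sets -/
noncomputable def conv (f g : Finset ℕ → k) : Finset ℕ → k := fun s =>
  ∑ t ∈ s.powerset, f t * g (s \ t)

end ev

section

variable {R : SimpleGraph ℕ} {k : Type} [Field k] [CharZero k]

lemma ev_mul (a b : MvPowerSeries ℕ k ⧸ KI k) : ev (a * b) = conv (ev a) (ev b) := by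
  obtain ⟨f, rfl⟩ := Ideal.Quotient.mk_surjective a
  obtain ⟨g, rfl⟩ := Ideal.Quotient.mk_surjective b
  rw [← map_mul, ev_mk, ev_mk, ev_mk]
  funext s
  rw [coeff_mul_ind]
  rfl

/-- the invariant functions of bounded degree -/
def Inv (R : SimpleGraph ℕ) (f : Finset ℕ → k) : Prop :=
  (∃ N : ℕ, ∀ s : Finset ℕ, N ≤ s.card → f s = 0) ∧
    ∀ σ : Equiv.Perm ℕ, IsSw R σ → ∀ s : Finset ℕ, f (s.map σ.toEmbedding) = f s

lemma Inv.add {f g : Finset ℕ → k} (hf : Inv R f) (hg : Inv R g) : Inv R (f + g) := by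
  obtain ⟨⟨N, hN⟩, hf2⟩ := hf
  obtain ⟨⟨M, hM⟩, hg2⟩ := hg
  refine ⟨⟨N + M, fun s hs => ?_⟩, fun σ hσ s => ?_⟩
  · rw [Pi.add_apply, hN s (by omega), hM s (by omega), add_zero]
  · rw [Pi.add_apply, Pi.add_apply, hf2 σ hσ, hg2 σ hσ]

lemma Inv.smul {f : Finset ℕ → k} (hf : Inv R f) (c : k) : Inv R (c • f) := by
  obtain ⟨⟨N, hN⟩, hf2⟩ := hf
  refine ⟨⟨N, fun s hs => ?_⟩, fun σ hσ s => ?_⟩
  · rw [Pi.smul_apply, hN s hs, smul_zero]
  · rw [Pi.smul_apply, Pi.smul_apply, hf2 σ hσ]

lemma Inv.one : Inv R (fun s : Finset ℕ => if s = ∅ then (1 : k) else 0) := by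
  refine ⟨⟨1, fun s hs => ?_⟩, fun σ _ s => ?_⟩
  · refine if_neg ?_
    rintro rfl
    simp at hs
  · simp only [Finset.map_eq_empty]

lemma Inv.conv {f g : Finset ℕ → k} (hf : Inv R f) (hg : Inv R g) : Inv R (conv f g) := by
  obtain ⟨⟨N, hN⟩, hf2⟩ := hf
  obtain ⟨⟨M, hM⟩, hg2⟩ := hg
  refine ⟨⟨N + M, fun s hs => ?_⟩, fun σ hσ s => ?_⟩
  · unfold Gen.conv
    refine Finset.sum_eq_zero fun t ht => ?_
    rw [Finset.mem_powerset] at ht
    have h1 := Finset.card_sdiff_add_card_eq_card ht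
    by_cases h : N ≤ t.card
    · rw [hN t h, zero_mul]
    · rw [hM (s \ t) (by omega), mul_zero]
  · unfold Gen.conv
    symm
    refine Finset.sum_nbij' (fun t => t.map σ.toEmbedding) (fun t => t.map σ.symm.toEmbedding)
      ?_ ?_ ?_ ?_ ?_
    · intro t ht
      rw [Finset.mem_powerset] at ht ⊢
      exact Finset.map_subset_map.2 ht
    · intro t ht
      rw [Finset.mem_powerset] at ht ⊢
      intro x hx
      rw [Finset.mem_map_equiv] at hx
      have := ht hx
      rw [Finset.mem_map_equiv] at this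
      simpa using this
    · intro t _
      ext x
      rw [Finset.mem_map_equiv, Finset.mem_map_equiv]
      simp
    · intro t _
      ext x
      rw [Finset.mem_map_equiv, Finset.mem_map_equiv]
      simp
    · intro t _
      have h1 : s.map σ.toEmbedding \ t.map σ.toEmbedding = (s \ t).map σ.toEmbedding := by
        ext x
        simp only [Finset.mem_sdiff, Finset.mem_map_equiv]
      rw [h1, hf2 σ hσ, hg2 σ hσ]

lemma Inv.basis {V : Type} [Fintype V] {H : SimpleGraph V} (hH : IsEven H) :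
    Inv R (fun s : Finset ℕ => ((X R H s : ℚ) : k)) := by
  refine ⟨⟨Fintype.card V + 1, fun s hs => ?_⟩, fun σ hσ s => ?_⟩
  · change ((X R H s : ℚ) : k) = 0
    rw [X_eq_zero (by omega), Rat.cast_zero]
  · obtain ⟨S, hS⟩ := hσ
    change ((X R H (s.map σ.toEmbedding) : ℚ) : k) = ((X R H s : ℚ) : k)
    rw [X_switch hH σ S hS]

lemma ev_XP {V : Type} [Fintype V] (H : SimpleGraph V) :
    ev (Ideal.Quotient.mk (KI k) (XP k R H)) = fun s : Finset ℕ => ((X R H s : ℚ) : k) := by
  rw [ev_mk]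
  funext s
  exact coeff_ind_XP k R H s

lemma inv_aeval (p : MvPolynomial Eul k) : Inv R (ev (MvPolynomial.aeval (gen k R) p)) := by
  induction p using MvPolynomial.induction_on with
  | C a =>
    have h : MvPolynomial.aeval (gen k R) (MvPolynomial.C a) =
        a • (1 : MvPowerSeries ℕ k ⧸ KI k) := by
      rw [MvPolynomial.aeval_C, Algebra.algebraMap_eq_smul_one]
    rw [h, ev_smul, ev_one]
    exact Inv.one.smul a
  | add p q hp hq =>
    rw [map_add, ev_add]
    exact hp.add hq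
  | mul_X p i hp =>
    rw [map_mul, MvPolynomial.aeval_X, ev_mul]
    refine hp.conv ?_
    unfold gen
    rw [ev_XP]
    exact Inv.basis (eulG_even i)

theorem inv_range (hR : ExtProp R) {f : Finset ℕ → k} (hf : Inv R f) :
    ∃ p : MvPolynomial Eul k, ev (MvPolynomial.aeval (gen k R) p) = f := by
  obtain ⟨⟨N, hN⟩, hf2⟩ := hf
  have hF := fun n : ℕ => expand' hR (Fin n) f hf2
  choose c hc1 hc2 using hF
  have hc3 : ∀ (n : ℕ) (s : Finset ℕ), s.card = n → f s =
      ∑ H ∈ (c n).support, c n H * ((X R H s : ℚ) : k) := fun n s hs =>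
    hc2 n s (hs.trans (Fintype.card_fin n).symm)
  set q : MvPowerSeries ℕ k ⧸ KI k := Ideal.Quotient.mk (KI k)
    (∑ n ∈ Finset.range N, ∑ H ∈ (c n).support, c n H • XP k R H) with hq
  have hev : ev q = f := by
    rw [hq, ev_mk]
    funext s
    rw [map_sum]
    have h1 : ∀ n, MvPowerSeries.coeff (ind s) (∑ H ∈ (c n).support, c n H • XP k R H) =
        if s.card = n then f s else 0 := by
      intro n
      rw [map_sum]
      by_cases hn : s.card = n
      · rw [if_pos hn, hc3 n s hn]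
        refine Finset.sum_congr rfl fun H _ => ?_
        rw [map_smul, coeff_ind_XP, smul_eq_mul]
      · rw [if_neg hn]
        refine Finset.sum_eq_zero fun H _ => ?_
        rw [map_smul, coeff_ind_XP, X_eq_zero (by rw [Fintype.card_fin]; exact hn), Rat.cast_zero,
          smul_zero]
    simp only [h1]
    rw [Finset.sum_ite_eq]
    split_ifs with h
    · rfl
    · exact (hN s (by simpa using h)).symm
  have hmem : q ∈ Algebra.adjoin k (Set.range (gen k R)) := by
    rw [hq, map_sum]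
    refine Subalgebra.sum_mem _ fun n _ => ?_
    rw [map_sum]
    refine Subalgebra.sum_mem _ fun H hH => ?_
    have h5 : Ideal.Quotient.mk (KI k) (c n H • XP k R H) =
        c n H • Ideal.Quotient.mk (KI k) (XP k R H) := rfl
    rw [h5]
    exact Subalgebra.smul_mem _ (mk_XP_mem n (Fin n) _ H (hc1 n H hH) (Fintype.card_fin n)) _
  rw [Algebra.adjoin_range_eq_range_aeval] at hmem
  obtain ⟨p, hp⟩ := hmem
  exact ⟨p, by rw [← hev, ← hp]; rfl⟩

/-- the main theorem for graphs with the extension property -/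
theorem main_gen (hR : ExtProp R) :
    ∃ φ : MvPolynomial Eul k →ₗ[k] (Finset ℕ → k), Function.Injective φ ∧
      (∀ f, f ∈ Set.range φ ↔ Inv R f) ∧ (φ 1 = fun s => if s = ∅ then 1 else 0) ∧
      (∀ p q, φ (p * q) = conv (φ p) (φ q)) ∧
      ∀ i, ∃ d : ℕ, ∀ s : Finset ℕ, φ (MvPolynomial.X i) s ≠ 0 → s.card = d := by
  refine ⟨{ toFun := fun p => ev (MvPolynomial.aeval (gen k R) p), map_add' := ?_, map_smul' := ?_ },
    ?_, ?_, ?_, ?_, ?_⟩
  · intro p q
    rw [map_add, ev_add]
  · intro c p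
    rw [map_smul, ev_smul]
    rfl
  · intro p q hpq
    exact (gen_algInd (k := k) hR) (ev_inj hpq)
  · intro f
    constructor
    · rintro ⟨p, rfl⟩
      exact inv_aeval p
    · intro hf
      obtain ⟨p, hp⟩ := inv_range hR hf
      exact ⟨p, hp⟩
  · change ev (MvPolynomial.aeval (gen k R) 1) = _
    rw [map_one, ev_one]
  · intro p q
    change ev (MvPolynomial.aeval (gen k R) (p * q)) = _
    rw [map_mul, ev_mul]
    rfl
  · intro i
    refine ⟨Fintype.card (Fin (eulN i)), fun s hs => ?_⟩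
    by_contra hcon
    apply hs
    change ev (MvPolynomial.aeval (gen k R) (MvPolynomial.X i)) s = 0
    rw [MvPolynomial.aeval_X]
    unfold gen
    rw [ev_XP]
    simp only
    rw [X_eq_zero hcon, Rat.cast_zero]

end

/-- universal and homogeneous graphs have the extension property -/
theorem extProp_of_universal {R : SimpleGraph ℕ}
    (hu : ∀ (V : Type) [Finite V] (H : SimpleGraph V), Nonempty (H ↪g R))
    (hh : ∀ (S : Finset ℕ) (f : ℕ → ℕ), Set.InjOn f S →
      (∀ x ∈ S, ∀ y ∈ S, (R.Adj (f x) (f y) ↔ R.Adj x y)) → ∃ g : R ≃g R, ∀ x ∈ S, g x = f x) :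
    ExtProp R := by
  intro U V hUV W
  let S : Finset ℕ := U ∪ V ∪ W
  let H : SimpleGraph (Option S) :=
    { Adj := fun a b => match a, b with
        | none, none => False
        | none, some y => (y : ℕ) ∈ U
        | some x, none => (x : ℕ) ∈ U
        | some x, some y => R.Adj x y
      symm := ⟨by
        intro a b h
        rcases a with _ | a <;> rcases b with _ | b
        · exact h
        · exact h
        · exact h
        · exact R.symm.1 _ _ h⟩
      loopless := ⟨by
        intro a h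
        rcases a with _ | a
        · exact h
        · exact R.loopless.1 _ h⟩ }
  obtain ⟨φ⟩ := hu (Option S) H
  have hφ : Function.Injective φ := φ.injective
  let f : ℕ → ℕ := fun n => if h : ∃ x : S, φ (some x) = n then (Classical.choose h : S) else 0
  have hf : ∀ x : S, f (φ (some x)) = x := by
    intro x
    have h : ∃ y : S, φ (some y) = φ (some x) := ⟨x, rfl⟩
    have h1 : f (φ (some x)) = (Classical.choose h : S) := dif_pos h
    rw [h1]
    have h2 := Classical.choose_spec h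
    have h3 := Option.some_injective _ (hφ h2)
    rw [h3]
  let S' : Finset ℕ := Finset.univ.image fun x : S => φ (some x)
  have hS' : ∀ n ∈ S', ∃ x : S, φ (some x) = n := by
    intro n hn
    obtain ⟨x, -, hx⟩ := Finset.mem_image.1 hn
    exact ⟨x, hx⟩
  obtain ⟨g, hg⟩ := hh S' f (by
    intro a ha b hb hab
    obtain ⟨x, rfl⟩ := hS' a ha
    obtain ⟨y, rfl⟩ := hS' b hb
    rw [hf, hf] at hab
    rw [Subtype.ext hab]) (by
    intro a ha b hb
    obtain ⟨x, rfl⟩ := hS' a ha
    obtain ⟨y, rfl⟩ := hS' b hb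
    rw [hf, hf]
    exact (φ.map_rel_iff (a := some x) (b := some y)).symm)
  have hgx : ∀ x : S, g (φ (some x)) = x := by
    intro x
    rw [hg _ (Finset.mem_image_of_mem _ (Finset.mem_univ x)), hf]
  have hadj : ∀ x : S, R.Adj (g (φ none)) x ↔ (x : ℕ) ∈ U := by
    intro x
    rw [← hgx x]
    have h1 : R.Adj (g (φ none)) (g (φ (some x))) ↔ R.Adj (φ none) (φ (some x)) := g.map_rel_iff
    have h2 : R.Adj (φ none) (φ (some x)) ↔ H.Adj none (some x) := φ.map_rel_iff
    rw [h1, h2, hgx x]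
  refine ⟨g (φ none), ?_, ?_, ?_⟩
  · intro hW
    have hS : g (φ none) ∈ S := Finset.mem_union_right _ hW
    have h1 := hgx ⟨_, hS⟩
    have h2 := g.injective h1
    exact absurd (hφ h2) (by simp)
  · intro u hu'
    have hS : u ∈ S := Finset.mem_union_left _ (Finset.mem_union_left _ hu')
    exact (hadj ⟨u, hS⟩).2 hu'
  · intro v hv
    have hS : v ∈ S := Finset.mem_union_left _ (Finset.mem_union_right _ hv)
    intro h
    have h1 := (hadj ⟨v, hS⟩).1 h
    exact Finset.disjoint_left.1 hUV h1 hv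

/-- the BIT graph is universal -/
theorem bit_universal (V : Type) [Finite V] (H : SimpleGraph V) : Nonempty (H ↪g bit) := by
  obtain ⟨g, hg, hH⟩ := exists_embedding extProp_bit H
  refine ⟨⟨⟨g, hg⟩, ?_⟩⟩
  intro a b
  rw [← hH]
  rfl

/-- the BIT graph is homogeneous -/
theorem bit_homogeneous (S : Finset ℕ) (f : ℕ → ℕ) (hf : Set.InjOn f S)
    (h : ∀ x ∈ S, ∀ y ∈ S, (bit.Adj (f x) (f y) ↔ bit.Adj x y)) :
    ∃ g : bit ≃g bit, ∀ x ∈ S, g x = f x := by
  obtain ⟨σ, h1, h2⟩ := exists_perm extProp_bit extProp_bit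
    ⟨S.image fun x => (x, f x), by
      intro p hp q hq
      obtain ⟨x, hx, rfl⟩ := Finset.mem_image.1 hp
      obtain ⟨y, hy, rfl⟩ := Finset.mem_image.1 hq
      refine ⟨⟨fun h => congrArg f h, fun h => hf hx hy h⟩, (h x hx y hy).symm⟩⟩
  refine ⟨⟨σ, fun {a b} => (h2 a b).symm⟩, fun x hx => ?_⟩
  exact h1 (x, f x) (Finset.mem_image_of_mem _ hx)

end Pool.Agent.Lib.MP_f0391a_al.Gen
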