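import Pool.Agent.Lib.MP_f0391a_al.Gen.Fourier
import Pool.Agent.Lib.MP_f0391a_al.Series

set_option autoImplicit false

namespace Pool.Agent.Lib.MP_f0391a_al.Gen

open Classical symmDiff Pool.Agent.Lib.MP_f0391a_al

variable {R : SimpleGraph ℕ} {k : Type} [Field k] [CharZero k]

/-- The ideal of power series all of whose squarefree coefficients vanish. -/
noncomputable def KI (k : Type) [Field k] : Ideal (MvPowerSeries ℕ k) where
  carrier := {f | ∀ s : ℕ →₀ ℕ, (∀ i, s i ≤ 1) → MvPowerSeries.coeff s f = 0}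
  add_mem' := by
    intro a b ha hb s hs
    rw [map_add, ha s hs, hb s hs, add_zero]
  zero_mem' := by
    intro s _
    simp
  smul_mem' := by
    intro c f hf s hs
    rw [smul_eq_mul, MvPowerSeries.coeff_mul]
    refine Finset.sum_eq_zero fun p hp => ?_
    rw [Finset.HasAntidiagonal.mem_antidiagonal] at hp
    rw [hf p.2, mul_zero]
    intro i
    have := congrArg (fun m => m i) hp
    simp only [Finsupp.add_apply] at this
    have := hs i
    omega

lemma coeff_mul_ind (f g : MvPowerSeries ℕ k) (s : Finset ℕ) :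
    MvPowerSeries.coeff (ind s) (f * g) =
      ∑ t ∈ s.powerset, MvPowerSeries.coeff (ind t) f * MvPowerSeries.coeff (ind (s \ t)) g := by
  rw [MvPowerSeries.coeff_mul]
  have hsq : ∀ p ∈ Finset.HasAntidiagonal.antidiagonal (ind s), (∀ i, p.1 i ≤ 1) ∧ (∀ i, p.2 i ≤ 1) ∧
      p.1.support ⊆ s ∧ p.2 = ind (s \ p.1.support) := by
    intro p hp
    rw [Finset.HasAntidiagonal.mem_antidiagonal] at hp
    have h : ∀ i, p.1 i + p.2 i = if i ∈ s then 1 else 0 := by
      intro i
      rw [← ind_apply, ← hp]
      rfl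
    refine ⟨?_, ?_, ?_, ?_⟩
    · intro i; have := h i; split_ifs at this <;> omega
    · intro i; have := h i; split_ifs at this <;> omega
    · intro i hi
      by_contra his
      have := h i
      rw [if_neg his] at this
      rw [Finsupp.mem_support_iff] at hi
      omega
    · ext i
      have := h i
      rw [ind_apply]
      simp only [Finset.mem_sdiff, Finsupp.mem_support_iff, not_not]
      by_cases his : i ∈ s
      · rw [if_pos his] at this
        by_cases h0 : p.1 i = 0
        · rw [if_pos ⟨his, h0⟩]; omega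
        · rw [if_neg (fun hh => h0 hh.2)]; omega
      · rw [if_neg his] at this
        rw [if_neg (fun hh => his hh.1)]; omega
  refine Finset.sum_bij' (fun p _ => p.1.support) (fun t _ => (ind t, ind (s \ t))) ?_ ?_ ?_ ?_ ?_
  · intro p hp
    rw [Finset.mem_powerset]
    exact (hsq p hp).2.2.1
  · intro t ht
    rw [Finset.mem_powerset] at ht
    rw [Finset.HasAntidiagonal.mem_antidiagonal]
    ext i
    simp only [Finsupp.add_apply, ind_apply, Finset.mem_sdiff]
    by_cases hi : i ∈ t
    · simp [hi, ht hi]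
    · simp [hi]
  · intro p hp
    obtain ⟨h1, h2, h3, h4⟩ := hsq p hp
    apply Prod.ext
    · exact ind_support h1
    · exact h4.symm
  · intro t _
    exact support_ind t
  · intro p hp
    obtain ⟨h1, h2, h3, h4⟩ := hsq p hp
    rw [ind_support h1, ← h4]

lemma mem_KI_iff (f : MvPowerSeries ℕ k) :
    f ∈ KI k ↔ ∀ s : Finset ℕ, MvPowerSeries.coeff (ind s) f = 0 := by
  constructor
  · intro h s
    exact h (ind s) (ind_le s)
  · intro h m hm
    rw [← ind_support hm]
    exact h _

lemma mk_eq_iff (f g : MvPowerSeries ℕ k) :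
    Ideal.Quotient.mk (KI k) f = Ideal.Quotient.mk (KI k) g ↔
      ∀ s : Finset ℕ, MvPowerSeries.coeff (ind s) f = MvPowerSeries.coeff (ind s) g := by
  rw [Ideal.Quotient.eq, mem_KI_iff]
  exact forall_congr' fun s => by rw [map_sub, sub_eq_zero]

section
variable {V W : Type} [Fintype V] [Fintype W]

/-- The power series attached to a finite graph. -/
noncomputable def XP (k : Type) [Field k] (R : SimpleGraph ℕ) (H : SimpleGraph V) : MvPowerSeries ℕ k :=
  fun m => if ∀ i, m i ≤ 1 then ((X R H m.support : ℚ) : k) else 0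

lemma coeff_XP (k : Type) [Field k] (R : SimpleGraph ℕ) (H : SimpleGraph V) (m : ℕ →₀ ℕ) :
    MvPowerSeries.coeff m (XP k R H) = if ∀ i, m i ≤ 1 then ((X R H m.support : ℚ) : k) else 0 := rfl

lemma coeff_ind_XP (k : Type) [Field k] (R : SimpleGraph ℕ) (H : SimpleGraph V) (s : Finset ℕ) :
    MvPowerSeries.coeff (ind s) (XP k R H) = ((X R H s : ℚ) : k) := by
  rw [coeff_XP, if_pos (ind_le s), support_ind]

lemma mk_XP_iso {H : SimpleGraph V} {H' : SimpleGraph W} (φ : H ≃g H') :
    Ideal.Quotient.mk (KI k) (XP k R H) = Ideal.Quotient.mk (KI k) (XP k R H') := by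
  rw [mk_eq_iff]
  intro s
  rw [coeff_ind_XP, coeff_ind_XP, X_iso φ]

lemma mk_XP_sum (H : SimpleGraph V) (H' : SimpleGraph W) :
    Ideal.Quotient.mk (KI k) (XP k R (H ⊕g H')) =
      Ideal.Quotient.mk (KI k) (XP k R H) * Ideal.Quotient.mk (KI k) (XP k R H') := by
  rw [← map_mul, mk_eq_iff]
  intro s
  rw [coeff_ind_XP, coeff_mul_ind, ← X_sum, Rat.cast_sum]
  exact Finset.sum_congr rfl fun t _ => by rw [coeff_ind_XP, coeff_ind_XP, Rat.cast_mul]

lemma mk_XP_empty [IsEmpty V] (H : SimpleGraph V) :
    Ideal.Quotient.mk (KI k) (XP k R H) = 1 := by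
  rw [← map_one (Ideal.Quotient.mk (KI k)), mk_eq_iff]
  intro s
  rw [coeff_ind_XP, MvPowerSeries.coeff_one]
  by_cases hs : s = ∅
  · subst hs
    have h0 : (fun v : V => (isEmptyElim v : ℕ)) ∈ bij V (∅ : Finset ℕ) := by
      rw [mem_bij]
      refine ⟨fun a => isEmptyElim a, ?_⟩
      simp
    rw [if_pos (by ext i; simp [ind_apply])]
    rw [X_base h0]
    rw [Fintype.sum_eq_single (Equiv.refl V)]
    · have : ((R.comap (fun v : V => (isEmptyElim v : ℕ))).comap (Equiv.refl V)) = ⊥ := by
        ext a b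
        exact isEmptyElim a
      rw [this, chi_bot, Rat.cast_one]
    · intro π hπ
      exact absurd (Equiv.ext fun a => isEmptyElim a) hπ
  · rw [if_neg, X_eq_zero, Rat.cast_zero]
    · rw [Fintype.card_eq_zero]
      simpa using hs
    · intro h
      apply hs
      rw [← support_ind s, h]
      rfl

lemma XP_homog (H : SimpleGraph V) (m : ℕ →₀ ℕ) (h : MvPowerSeries.coeff m (XP k R H) ≠ 0) :
    m.sum (fun _ e => e) = Fintype.card V := by
  rw [coeff_XP] at h
  split_ifs at h with hm
  · rw [sum_eq_card hm]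
    by_contra hcon
    exact h (by rw [X_eq_zero hcon, Rat.cast_zero])
  · exact absurd rfl h

lemma XP_inv {H : SimpleGraph V} (hH : IsEven H) (σ : Equiv.Perm ℕ) (hσ : IsSw R σ) (m : ℕ →₀ ℕ) :
    MvPowerSeries.coeff (Finsupp.equivMapDomain σ m) (XP k R H) = MvPowerSeries.coeff m (XP k R H) := by
  rw [coeff_XP, coeff_XP]
  have h1 : (∀ i, Finsupp.equivMapDomain σ m i ≤ 1) ↔ ∀ i, m i ≤ 1 := by
    simp only [Finsupp.equivMapDomain_apply]
    constructor
    · intro h i
      have := h (σ i)
      simpa using this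
    · intro h i
      exact h _
  have h2 : (Finsupp.equivMapDomain σ m).support = m.support.map σ.toEmbedding := rfl
  by_cases hm : ∀ i, m i ≤ 1
  · rw [if_pos hm, if_pos (h1.2 hm), h2]
    obtain ⟨S, hS⟩ := hσ
    rw [X_switch hH σ S hS]
  · rw [if_neg hm, if_neg (fun h => hm (h1.1 h))]

end

/-- the generators -/
noncomputable def gen (k : Type) [Field k] (R : SimpleGraph ℕ) (i : Eul) : MvPowerSeries ℕ k ⧸ KI k := Ideal.Quotient.mk (KI k) (XP k R (eulG i))

lemma mk_XP_mem (n : ℕ) : ∀ (V : Type) (_ : Fintype V) (H : SimpleGraph V), IsEven H →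
    Fintype.card V = n →
    Ideal.Quotient.mk (KI k) (XP k R H) ∈ Algebra.adjoin k (Set.range (gen k R)) := by
  induction n using Nat.strong_induction_on with
  | _ n ih =>
    intro V _ H hH hn
    by_cases hne : Nonempty V
    · by_cases hc : H.Connected
      · obtain ⟨i, ⟨φ⟩⟩ := exists_eul hc hH
        rw [mk_XP_iso φ]
        exact Algebra.subset_adjoin ⟨i, rfl⟩
      · obtain ⟨A, B, _, _, HA, HB, ⟨φ⟩, h1, h2, h3, h4⟩ := exists_split hH hne hc
        rw [mk_XP_iso φ, mk_XP_sum]
        refine Subalgebra.mul_mem _ ?_ ?_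
        · exact ih (Fintype.card A) (by omega) A _ HA h1 rfl
        · exact ih (Fintype.card B) (by omega) B _ HB h2 rfl
    · rw [not_nonempty_iff] at hne
      rw [mk_XP_empty]
      exact Subalgebra.one_mem _

/-- monomials in the generators come from graphs. -/
lemma exists_graph_of_monomial (d : Eul →₀ ℕ) :
    ∃ (V : Type) (_ : Fintype V) (H : SimpleGraph V),
      (d.prod fun i e => gen k R i ^ e) = Ideal.Quotient.mk (KI k) (XP k R H) ∧
      ∀ j, cnt (eulG j) H = d j * cnt (eulG j) (eulG j) := by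
  induction d using Finsupp.induction_linear with
  | zero =>
    refine ⟨Empty, inferInstance, ⊥, ?_, ?_⟩
    · rw [Finsupp.prod_zero_index, mk_XP_empty]
    · intro j
      simp only [Finsupp.coe_zero, Pi.zero_apply, zero_mul]
      unfold cnt
      have : CEmb (eulG j) (⊥ : SimpleGraph Empty) = ∅ := by
        rw [Set.eq_empty_iff_forall_notMem]
        intro f _
        obtain ⟨w⟩ := (eulG_conn j).nonempty
        exact (f w).elim
      rw [this, Set.ncard_empty]
  | add f g hf hg =>
    obtain ⟨V, _, H, h1, h2⟩ := hf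
    obtain ⟨V', _, H', h1', h2'⟩ := hg
    refine ⟨V ⊕ V', inferInstance, H ⊕g H', ?_, ?_⟩
    · rw [mk_XP_sum, ← h1, ← h1', Finsupp.prod_add_index']
      · intro i; exact pow_zero _
      · intro i a b; exact pow_add _ _ _
    · intro j
      rw [cnt_sum (eulG_conn j), h2, h2', Finsupp.add_apply, add_mul]
  | single i e =>
    suffices hk : ∃ (V : Type) (_ : Fintype V) (H : SimpleGraph V),
      gen k R i ^ e = Ideal.Quotient.mk (KI k) (XP k R H) ∧
      ∀ j, cnt (eulG j) H = (Finsupp.single i e) j * cnt (eulG j) (eulG j) by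
      obtain ⟨V, _, H, h1, h2⟩ := hk
      refine ⟨V, inferInstance, H, ?_, h2⟩
      rw [← h1]
      exact Finsupp.prod_single_index (h := fun i e => gen k R i ^ e) (pow_zero _)
    induction e with
    | zero =>
      refine ⟨Empty, inferInstance, ⊥, ?_, ?_⟩
      · rw [pow_zero, mk_XP_empty]
      · intro j
        simp only [Finsupp.single_zero, Finsupp.coe_zero, Pi.zero_apply, zero_mul]
        unfold cnt
        have : CEmb (eulG j) (⊥ : SimpleGraph Empty) = ∅ := by
          rw [Set.eq_empty_iff_forall_notMem]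
          intro f _
          obtain ⟨w⟩ := (eulG_conn j).nonempty
          exact (f w).elim
        rw [this, Set.ncard_empty]
    | succ e ih =>
      obtain ⟨V, _, H, h1, h2⟩ := ih
      refine ⟨V ⊕ Fin (eulN i), inferInstance, H ⊕g eulG i, ?_, ?_⟩
      · rw [mk_XP_sum, ← h1, pow_succ]
        rfl
      · intro j
        rw [cnt_sum (eulG_conn j), h2]
        by_cases hij : i = j
        · subst hij
          simp only [Finsupp.single_eq_same]
          ring
        · have h0 : cnt (eulG j) (eulG i) = 0 := by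
            by_contra hcon
            exact hij (eul_eq_of_iso (iso_of_cnt_ne_zero (eulG_conn j) (eulG_conn i) hcon)).symm
          rw [h0]
          simp [hij]

lemma gen_algInd (hR : ExtProp R) : AlgebraicIndependent k (gen k R) := by
  rw [algebraicIndependent_iff]
  intro p hp
  have hex := exists_graph_of_monomial (k := k) (R := R)
  choose V instV H h1 h2 using hex
  rw [MvPolynomial.aeval_def, MvPolynomial.eval₂_eq] at hp
  have hp2 : Ideal.Quotient.mk (KI k) (∑ d ∈ p.support, p.coeff d • XP k R (H d)) = 0 := by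
    rw [← hp, map_sum]
    refine Finset.sum_congr rfl fun d _ => ?_
    have h3 : ∏ i ∈ d.support, gen k R i ^ d i = Ideal.Quotient.mk (KI k) (XP k R (H d)) := h1 d
    rw [h3, ← Algebra.smul_def]
    rfl
  rw [Ideal.Quotient.eq_zero_iff_mem, mem_KI_iff] at hp2
  have hp3 : ∀ s : Finset ℕ, ∑ d ∈ p.support, p.coeff d * ((X R (H d) s : ℚ) : k) = 0 := by
    intro s
    rw [← hp2 s, map_sum]
    refine Finset.sum_congr rfl fun d _ => ?_
    rw [map_smul, coeff_ind_XP, smul_eq_mul]
  have hli := lin_indep hR p.support V H (by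
    intro d _ d' _ ⟨φ⟩
    ext j
    have h4 := cnt_iso (eulG j) φ
    rw [h2, h2] at h4
    exact Nat.eq_of_mul_eq_mul_right (cnt_self_pos (eulG j)) h4) (fun d => p.coeff d) hp3
  ext d
  rw [MvPolynomial.coeff_zero]
  by_cases hd : d ∈ p.support
  · exact hli d hd
  · exact MvPolynomial.notMem_support_iff.mp hd


end Pool.Agent.Lib.MP_f0391a_al.Gen
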