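import Pool.Agent.Lib.MP_f0391a_al.XH
import Pool.Agent.Lib.MP_f0391a_al.Fourier
import Pool.Agent.Lib.MP_f0391a_al.Comp

set_option autoImplicit false

namespace Pool.Agent.Lib.MP_f0391a_al.Gen

open Classical symmDiff Pool.Agent.Lib.MP_f0391a_al

variable {R : SimpleGraph ℕ}

section
variable {V W : Type} [Fintype V] [Fintype W]

/-- The basis function attached to a finite graph. -/
noncomputable def X (R : SimpleGraph ℕ) (H : SimpleGraph V) (s : Finset ℕ) : ℚ :=
  ∑ e ∈ bij V s, chi H (R.comap e)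

lemma X_eq_zero {H : SimpleGraph V} {s : Finset ℕ} (h : s.card ≠ Fintype.card V) : X R H s = 0 := by
  unfold X
  have : bij V s = ∅ := by
    rw [Finset.eq_empty_iff_forall_notMem]
    intro e he
    exact h (card_of_mem_bij he)
  rw [this, Finset.sum_empty]

lemma X_base {H : SimpleGraph V} {s : Finset ℕ} {e₀ : W → ℕ} (h₀ : e₀ ∈ bij W s) :
    X R H s = ∑ π : V ≃ W, chi H ((R.comap e₀).comap π) := by
  unfold X
  rw [sum_bij_base h₀]
  rfl

lemma X_comap (φ : V ≃ W) (H : SimpleGraph W) (s : Finset ℕ) : X R (H.comap φ) s = X R H s := by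
  by_cases hs : s.card = Fintype.card W
  · obtain ⟨e₀, h₀⟩ := exists_mem_bij hs
    rw [X_base h₀, X_base h₀]
    refine Fintype.sum_equiv (Equiv.equivCongr φ (Equiv.refl W)) _ _ ?_
    intro π
    rw [← chi_comap φ H]
    congr 1
    ext a b
    simp
  · rw [X_eq_zero hs, X_eq_zero]
    rw [Fintype.card_congr φ]
    exact hs

lemma X_iso {H : SimpleGraph V} {H' : SimpleGraph W} (φ : H ≃g H') (s : Finset ℕ) :
    X R H s = X R H' s := by
  rw [← X_comap φ.toEquiv H']
  congr 1
  ext a b
  rw [SimpleGraph.comap_adj]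
  exact (φ.map_rel_iff (a := a) (b := b)).symm

/-- Invariance under switching isomorphisms. -/
lemma X_switch {H : SimpleGraph V} (hH : IsEven H) (σ : Equiv.Perm ℕ) (S : Set ℕ)
    (hσ : ∀ i j, i ≠ j → (R.Adj (σ i) (σ j) ↔ (R.Adj i j ↔ (i ∈ S ↔ j ∈ S))))
    (s : Finset ℕ) : X R H (s.map σ.toEmbedding) = X R H s := by
  unfold X
  symm
  refine Finset.sum_bij (fun e _ => σ ∘ e) ?_ ?_ ?_ ?_
  · intro e he
    rw [mem_bij] at he ⊢
    refine ⟨σ.injective.comp he.1, ?_⟩
    rw [← he.2]
    ext x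
    simp only [Finset.mem_image, Finset.mem_univ, true_and, Function.comp, Finset.mem_map_equiv]
    constructor
    · rintro ⟨a, rfl⟩; exact ⟨a, by simp⟩
    · rintro ⟨a, ha⟩; exact ⟨a, by simp [ha]⟩
  · intro e _ e' _ h
    funext v
    exact σ.injective (congrFun h v)
  · intro e he
    rw [mem_bij] at he
    refine ⟨σ.symm ∘ e, ?_, ?_⟩
    · rw [mem_bij]
      refine ⟨σ.symm.injective.comp he.1, ?_⟩
      ext x
      have := congrArg (fun t => σ x ∈ t) he.2
      simp only [Finset.mem_image, Finset.mem_univ, true_and, Finset.mem_map_equiv,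
        Equiv.symm_apply_apply, eq_iff_iff] at this
      rw [← this]
      simp only [Finset.mem_image, Finset.mem_univ, true_and, Function.comp]
      constructor
      · rintro ⟨a, rfl⟩; exact ⟨a, by simp⟩
      · rintro ⟨a, ha⟩; exact ⟨a, by simp [ha]⟩
    · funext v; simp
  · intro e he
    rw [mem_bij] at he
    have : R.comap (σ ∘ e) = R.comap e ∆ cut ((Finset.univ.filter (fun v => e v ∈ S) : Finset V) : Set V) := by
      ext a b
      rw [adj_symmDiff]
      simp only [SimpleGraph.comap_adj, Function.comp, cut, Finset.coe_filter, Finset.mem_univ,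
        true_and, Set.mem_ofPred_eq]
      by_cases hab : a = b
      · subst hab
        simp
      · rw [hσ _ _ (fun h => hab (he.1 h))]
        tauto
    rw [this, chi_symmDiff, chi_cut hH, mul_one]

end

/-- The product formula. -/
lemma X_sum {V W : Type} [Fintype V] [Fintype W] (H : SimpleGraph V) (H' : SimpleGraph W)
    (s : Finset ℕ) :
    ∑ t ∈ s.powerset, X R H t * X R H' (s \ t) = X R (H ⊕g H') s := by
  unfold X
  have hmaps : ∀ e ∈ bij (V ⊕ W) s, Finset.univ.image (e ∘ Sum.inl) ∈ s.powerset := by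
    intro e he
    rw [mem_bij] at he
    rw [Finset.mem_powerset, ← he.2]
    intro x hx
    rw [Finset.mem_image] at hx ⊢
    obtain ⟨a, -, rfl⟩ := hx
    exact ⟨Sum.inl a, Finset.mem_univ _, rfl⟩
  rw [← Finset.sum_fiberwise_of_maps_to hmaps]
  refine Finset.sum_congr rfl fun t ht => ?_
  rw [Finset.mem_powerset] at ht
  rw [Finset.sum_mul_sum, ← Finset.sum_product']
  symm
  refine Finset.sum_bij' (fun e _ => (e ∘ Sum.inl, e ∘ Sum.inr)) (fun p _ => Sum.elim p.1 p.2)
    ?_ ?_ ?_ ?_ ?_
  · intro e he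
    rw [Finset.mem_filter, mem_bij] at he
    obtain ⟨⟨hinj, himg⟩, himg2⟩ := he
    rw [Finset.mem_product, mem_bij, mem_bij]
    refine ⟨⟨hinj.comp Sum.inl_injective, himg2⟩, hinj.comp Sum.inr_injective, ?_⟩
    ext x
    rw [Finset.mem_sdiff, ← himg, ← himg2]
    simp only [Finset.mem_image, Finset.mem_univ, true_and, Function.comp, Sum.exists, not_exists]
    constructor
    · rintro ⟨a, rfl⟩
      exact ⟨Or.inr ⟨a, rfl⟩, fun b hb => by simpa using hinj hb⟩
    · rintro ⟨⟨a, ha⟩ | ⟨a, ha⟩, h2⟩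
      · exact absurd ha (h2 a)
      · exact ⟨a, ha⟩
  · intro p hp
    rw [Finset.mem_product, mem_bij, mem_bij] at hp
    obtain ⟨⟨h1, h2⟩, h3, h4⟩ := hp
    rw [Finset.mem_filter, mem_bij]
    have ha : ∀ a, p.1 a ∈ t := fun a => by
      rw [← h2]; exact Finset.mem_image_of_mem _ (Finset.mem_univ a)
    have hb : ∀ b, p.2 b ∈ s \ t := fun b => by
      rw [← h4]; exact Finset.mem_image_of_mem _ (Finset.mem_univ b)
    refine ⟨⟨?_, ?_⟩, ?_⟩
    · refine Function.Injective.sumElim h1 h3 ?_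
      intro a b hab
      have := hb b
      rw [← hab, Finset.mem_sdiff] at this
      exact this.2 (ha a)
    · ext x
      simp only [Finset.mem_image, Finset.mem_univ, true_and, Sum.exists, Sum.elim_inl,
        Sum.elim_inr]
      constructor
      · rintro (⟨a, rfl⟩ | ⟨b, rfl⟩)
        · exact ht (ha a)
        · exact (Finset.mem_sdiff.mp (hb b)).1
      · intro hx
        by_cases hxt : x ∈ t
        · rw [← h2] at hxt
          obtain ⟨a, -, rfl⟩ := Finset.mem_image.mp hxt
          exact Or.inl ⟨a, rfl⟩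
        · have : x ∈ s \ t := Finset.mem_sdiff.mpr ⟨hx, hxt⟩
          rw [← h4] at this
          obtain ⟨a, -, rfl⟩ := Finset.mem_image.mp this
          exact Or.inr ⟨a, rfl⟩
    · rw [← h2]
      rfl
  · intro e _
    funext x
    rcases x with x | x <;> rfl
  · intro p _
    rfl
  · intro e _
    rw [chi_sum]
    rfl

end Pool.Agent.Lib.MP_f0391a_al.Gen
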